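import Pool.Agent.H52.S3.LemmaA
import Pool.Agent.H77.SN.Defs

/-!
# Section 2 of `db5e86_proof`: transversality and (C2) at an exact class return
-/

set_option autoImplicit false
set_option linter.unusedSectionVars false

open scoped InnerProductSpace Topology ContDiff
open Set Filter

namespace Pool.Agent.H52.S2

open Pool.Agent.H91.GE hiding G1 G11 Nondeg Br exists_br cF smooth_cF Cfg mem_TSet_of_map
open Pool.Agent.H59.LV Pool.Agent.H59.ND Pool.Agent.H59.Zar Pool.Agent.H77.SN Pool.Agent.H52.S3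

variable {E F : Type*} [NormedAddCommGroup E] [InnerProductSpace ℝ E] [FiniteDimensional ℝ E]
  [NormedAddCommGroup F] [InnerProductSpace ℝ F] [FiniteDimensional ℝ F]
  {S : Set E} {A : E × E → E} {K K₂ : NNReal} {Φ : ℝ → E × E → E × E} {n : ℕ}

/-- The identity (C1) on the relation near a point of the relation. -/
structure C1At (Φ : ℝ → E × E → E × E) (S : Set E) (ζ : E × E → E)
    (ν : (E × E) × (E × E) → ℝ) (p : (E × E) × (E × E)) : Prop where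
  mem : p ∈ RR Φ S
  gd : Gd S ζ p.1.1 p.2.1
  smooth : ∃ O ∈ 𝓝 p, ContDiffOn ℝ ∞ ν O
  ne : ν p ≠ 0
  c1 : ∀ᶠ q in 𝓝[RR Φ S] p, fderiv ℝ ζ (q.1.1, q.2.1) (q.1.2, -(ν q • q.2.2)) = 0

variable {ζ : E × E → E} {ν : (E × E) × (E × E) → ℝ} {p : (E × E) × (E × E)}

theorem C1At.idR (h : GFlow F S A K K₂ Φ)
    (hdim : Module.finrank ℝ E = Module.finrank ℝ F + n) (hc : C1At Φ S ζ ν p) :
    ∃ U, p ∈ U ∧ IdR (RR Φ S) U ζ A (fun q => -(ν q)) := by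
  have hR : RInv Φ S (RR Φ S) := ⟨(retRel h hdim).sub, (retRel h hdim).inv⟩
  obtain ⟨W, hW, hxyW, hζ, -⟩ := hc.gd
  obtain ⟨O, hO, hν⟩ := hc.smooth
  obtain ⟨O', hO'O, hO'o, hpO'⟩ := mem_nhds_iff.1 hO
  obtain ⟨V, hV, hVid⟩ := mem_nhdsWithin_iff_exists_mem_nhds_inter.1 hc.c1
  obtain ⟨V', hV'V, hV'o, hpV'⟩ := mem_nhds_iff.1 hV
  set U : Set ((E × E) × (E × E)) := bs E ⁻¹' W ∩ (O' ∩ V') with hU
  have hUo : IsOpen U := (hW.preimage (bs E).continuous).inter (hO'o.inter hV'o)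
  refine ⟨U, ⟨hxyW, hpO', hpV'⟩, IdR.mk' h hR hUo (fun q hq => ?_) ?_ ?_⟩
  · exact (hζ _ hq.1).contDiffAt (hW.mem_nhds hq.1)
  · exact (hν.mono fun q hq => hO'O hq.2.1).neg
  · intro q hqR hq
    have h1 := hVid ⟨hV'V hq.2.2, hqR⟩
    simp only [mem_ofPred_eq] at h1
    rw [neg_smul]
    exact h1

/-- (C1'): (C1) differentiated along a vertical vector. -/
theorem C1At.vert (h : GFlow F S A K K₂ Φ)
    (hdim : Module.finrank ℝ E = Module.finrank ℝ F + n) (hc : C1At Φ S ζ ν p) {ξ ξ' : E}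
    (hξ : (((0 : E), ξ), ((0 : E), ξ')) ∈ ZT (RR Φ S) p) :
    ∃ c : ℝ, fderiv ℝ ζ (p.1.1, p.2.1) (ξ, -(ν p • ξ') + c • p.2.2) = 0 := by
  obtain ⟨U, hpU, hid⟩ := hc.idR h hdim
  have h1 := hid.first hpU hξ
  have h0 : (((0 : E), (0 : E)) : E × E) = 0 := rfl
  simp only [h0, map_zero, zero_apply, zero_add, neg_smul] at h1
  exact ⟨_, h1⟩

theorem C1At.memS (hc : C1At Φ S ζ ν p) : p.1.1 ∈ S ∧ p.2.1 ∈ S :=
  ⟨fst_mem_TSet hc.mem.1.1, fst_mem_TSet hc.mem.2.1.1⟩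

theorem C1At.self (hc : C1At Φ S ζ ν p) :
    fderiv ℝ ζ (p.1.1, p.2.1) (p.1.2, -(ν p • p.2.2)) = 0 :=
  hc.c1.self_of_nhdsWithin hc.mem

/-- `D ζ (0, v) = ν⁻¹ D ζ (w, 0)`. -/
theorem C1At.dv (hc : C1At Φ S ζ ν p) :
    fderiv ℝ ζ (p.1.1, p.2.1) (p.1.2, 0) = ν p • fderiv ℝ ζ (p.1.1, p.2.1) (0, p.2.2) := by
  have h1 := hc.self
  have h2 : ((p.1.2, -(ν p • p.2.2)) : E × E) = (p.1.2, 0) - ν p • ((0 : E), p.2.2) := by
    simp
  rw [h2, map_sub, map_smul, sub_eq_zero] at h1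
  exact h1

theorem C1At.inj (hc : C1At Φ S ζ ν p) :
    (∀ a ∈ ZT S p.1.1, fderiv ℝ ζ (p.1.1, p.2.1) (a, 0) = 0 → a = 0) ∧
      ∀ b ∈ ZT S p.2.1, fderiv ℝ ζ (p.1.1, p.2.1) (0, b) = 0 → b = 0 := by
  obtain ⟨W, -, hxy, -, hk⟩ := hc.gd
  obtain ⟨-, -, h1, h2⟩ := hk _ hxy hc.memS.1 hc.memS.2
  exact ⟨h1, h2⟩

/-- Vertical vectors of the first factor in the Zariski tangent space vanish. -/
theorem C1At.left (h : GFlow F S A K K₂ Φ)
    (hdim : Module.finrank ℝ E = Module.finrank ℝ F + n) (hc : C1At Φ S ζ ν p) {ξ : E}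
    (hξ : (((0 : E), ξ), (0 : E × E)) ∈ ZT (RR Φ S) p) : ξ = 0 := by
  have hR : RInv Φ S (RR Φ S) := ⟨(retRel h hdim).sub, (retRel h hdim).inv⟩
  have hξ' : (((0 : E), ξ), ((0 : E), (0 : E))) ∈ ZT (RR Φ S) p := hξ
  obtain ⟨c, h1⟩ := hc.vert h hdim hξ'
  rw [smul_zero, neg_zero, zero_add] at h1
  obtain ⟨hT, hw⟩ := (ver_mem_iff h.sub hc.mem.1).1 (ZT_fst_snd hR hξ).1
  have h2 : fderiv ℝ ζ (p.1.1, p.2.1) (ν p • ξ + c • p.1.2, 0) = 0 := by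
    have h3 : ((ν p • ξ + c • p.1.2, (0 : E)) : E × E)
        = ν p • (ξ, c • p.2.2) + c • ((p.1.2, (0 : E)) - ν p • ((0 : E), p.2.2)) := by
      simp [smul_smul, mul_comm]
    rw [h3, map_add, map_smul, map_smul, map_sub, map_smul, h1, hc.dv, sub_self, smul_zero,
      smul_zero, add_zero]
  have hwT := snd_mem_TS h.sub hc.mem.1
  have h4 := hc.inj.1 _ ((ZT S p.1.1).add_mem ((ZT S p.1.1).smul_mem _ hT)
    ((ZT S p.1.1).smul_mem _ hwT)) h2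
  have hw1 : ⟪p.1.2, p.1.2⟫_ℝ = 1 := by
    rw [real_inner_self_eq_norm_sq, hc.mem.1.2]; norm_num
  have h5 : c = 0 := by
    have h6 : ⟪p.1.2, ν p • ξ + c • p.1.2⟫_ℝ = 0 := by rw [h4, inner_zero_right]
    rw [inner_add_right, real_inner_smul_right, real_inner_smul_right, hw, hw1] at h6
    linarith
  rw [h5, zero_smul, add_zero] at h4
  exact (smul_eq_zero.1 h4).resolve_left hc.ne

/-- Vertical vectors of the second factor in the Zariski tangent space vanish. -/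
theorem C1At.right (h : GFlow F S A K K₂ Φ)
    (hdim : Module.finrank ℝ E = Module.finrank ℝ F + n) (hc : C1At Φ S ζ ν p) {ξ : E}
    (hξ : ((0 : E × E), ((0 : E), ξ)) ∈ ZT (RR Φ S) p) : ξ = 0 := by
  have hR : RInv Φ S (RR Φ S) := ⟨(retRel h hdim).sub, (retRel h hdim).inv⟩
  have hξ' : (((0 : E), (0 : E)), ((0 : E), ξ)) ∈ ZT (RR Φ S) p := hξ
  obtain ⟨c, h1⟩ := hc.vert h hdim hξ'
  obtain ⟨hT, hw⟩ := (ver_mem_iff h.sub hc.mem.2.1).1 (ZT_fst_snd hR hξ).2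
  have hwT := snd_mem_TS h.sub hc.mem.2.1
  have h4 := hc.inj.2 _ ((ZT S p.2.1).add_mem ((ZT S p.2.1).neg_mem ((ZT S p.2.1).smul_mem _ hT))
    ((ZT S p.2.1).smul_mem _ hwT)) h1
  have hw1 : ⟪p.2.2, p.2.2⟫_ℝ = 1 := by
    rw [real_inner_self_eq_norm_sq, hc.mem.2.1.2]; norm_num
  have h5 : c = 0 := by
    have h6 : ⟪p.2.2, -(ν p • ξ) + c • p.2.2⟫_ℝ = 0 := by rw [h4, inner_zero_right]
    rw [inner_add_right, inner_neg_right, real_inner_smul_right, real_inner_smul_right, hw,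
      hw1] at h6
    linarith
  rw [h5, zero_smul, add_zero, neg_eq_zero] at h4
  exact (smul_eq_zero.1 h4).resolve_left hc.ne

variable {w : E × E} {L : ℝ}

/-- Transversality at the origin. -/
theorem C1At.tr (h : GFlow F S A K K₂ Φ)
    (hdim : Module.finrank ℝ E = Module.finrank ℝ F + n) (hc : C1At Φ S ζ ν (w, Φ L w)) :
    Tr Φ S w := by
  intro k hk hk0
  obtain ⟨k₁, k₂⟩ := k
  simp only at hk0
  subst hk0
  have hw : w ∈ UT S := hc.mem.1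
  have hkU := (retRel h hdim).Y_le hw hk
  have h1 : ((((0 : E), k₂), (0 : E × E)) : (E × E) × (E × E)) ∈ ZT (RR Φ S) (w, Φ L w) := by
    have h2 := ((retRel h hdim).mem_graph hw L (a := ((0 : E), k₂)) (b := 0)).2
      ⟨hkU, by rw [sub_zero]; exact hk⟩
    rwa [map_zero] at h2
  rw [hc.left h hdim h1]
  rfl

/-- Transversality at the end point. -/
theorem C1At.tr' (h : GFlow F S A K K₂ Φ)
    (hdim : Module.finrank ℝ E = Module.finrank ℝ F + n) (hc : C1At Φ S ζ ν (w, Φ L w)) :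
    Tr Φ S (Φ L w) := by
  intro k hk hk0
  obtain ⟨k₁, k₂⟩ := k
  simp only at hk0
  subst hk0
  have hw : w ∈ UT S := hc.mem.1
  have hR := retRel h hdim
  set b := fderiv ℝ (Φ (-L)) (Φ L w) ((0 : E), k₂) with hb
  have hbY : b ∈ YY Φ S w := by
    have h2 := (hR.flow_Y (hR.flow_mem hw L) (-L) (a := ((0 : E), k₂))).2 hk
    rwa [hR.flow_neg] at h2
  have hbk : fderiv ℝ (Φ L) w b = ((0 : E), k₂) := hR.fderiv_inv' L w _
  have h1 : (((0 : E × E), ((0 : E), k₂)) : (E × E) × (E × E)) ∈ ZT (RR Φ S) (w, Φ L w) := by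
    have h2 := (hR.mem_graph hw L (a := 0) (b := b)).2
      ⟨Submodule.zero_mem _, by rw [zero_sub]; exact Submodule.neg_mem _ hbY⟩
    rwa [hbk] at h2
  rw [hc.right h hdim h1]
  rfl

/-- The crossing map `Z` of a class: smooth near `p`, its base point is `ζ`, both pairs
`(q.1, Z q)`, `(Z q, q.2)` are in the relation, and `Z p` is on the orbit. -/
structure ZMap (Φ : ℝ → E × E → E × E) (S : Set E) (ζ : E × E → E) (w : E × E) (L s : ℝ)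
    (Z : (E × E) × (E × E) → E × E) : Prop where
  smooth : ∃ O ∈ 𝓝 (w, Φ L w), ContDiffOn ℝ ∞ Z O
  fst : ∀ᶠ q in 𝓝 (w, Φ L w), (Z q).1 = ζ (q.1.1, q.2.1)
  self : Z (w, Φ L w) = Φ s w
  left : ∀ᶠ q in 𝓝[RR Φ S] (w, Φ L w), (q.1, Z q) ∈ RR Φ S
  right : ∀ᶠ q in 𝓝[RR Φ S] (w, Φ L w), (Z q, q.2) ∈ RR Φ S

variable {s : ℝ} {Z : (E × E) × (E × E) → E × E}

theorem ZMap.diff (hZ : ZMap Φ S ζ w L s Z) : DifferentiableAt ℝ Z (w, Φ L w) := by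
  obtain ⟨O, hO, h1⟩ := hZ.smooth
  exact (h1.contDiffAt hO).differentiableAt (by simp)

theorem ZMap.fderiv_fst (hZ : ZMap Φ S ζ w L s Z) (hc : C1At Φ S ζ ν (w, Φ L w))
    (C : (E × E) × (E × E)) :
    (fderiv ℝ Z (w, Φ L w) C).1 = fderiv ℝ ζ (w.1, (Φ L w).1) (C.1.1, C.2.1) := by
  obtain ⟨W, hW, hxy, hζ, -⟩ := hc.gd
  have h1 : HasFDerivAt ζ (fderiv ℝ ζ (w.1, (Φ L w).1)) (bs E (w, Φ L w)) :=
    ((hζ.contDiffAt (hW.mem_nhds hxy)).differentiableAt (by simp)).hasFDerivAt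
  have h2 := h1.comp (w, Φ L w) (bs E).hasFDerivAt
  have h3 : HasFDerivAt (fun q => (Z q).1)
      ((ContinuousLinearMap.fst ℝ E E).comp (fderiv ℝ Z (w, Φ L w))) (w, Φ L w) :=
    hZ.diff.hasFDerivAt.fst
  have h4 : (fun q => (Z q).1) =ᶠ[𝓝 (w, Φ L w)] ζ ∘ bs E := by
    filter_upwards [hZ.fst] with q hq
    exact hq
  have h5 := h3.unique (h2.congr_of_eventuallyEq h4)
  exact congrArg (fun f : ((E × E) × (E × E)) →L[ℝ] E => f C) h5

theorem exists_nhds_of_within {V : Type*} [TopologicalSpace V] {R : Set V} {p : V}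
    {Q : V → Prop} (h : ∀ᶠ q in 𝓝[R] p, Q q) : ∃ U ∈ 𝓝 p, ∀ q ∈ R, q ∈ U → Q q := by
  obtain ⟨U, hU, h1⟩ := mem_nhdsWithin_iff_exists_mem_nhds_inter.1 h
  exact ⟨U, hU, fun q hq hqU => h1 ⟨hqU, hq⟩⟩

theorem ZMap.left_ZT (hZ : ZMap Φ S ζ w L s Z) {C : (E × E) × (E × E)}
    (hC : C ∈ ZT (RR Φ S) (w, Φ L w)) :
    (C.1, fderiv ℝ Z (w, Φ L w) C) ∈ ZT (RR Φ S) (w, Φ s w) := by
  obtain ⟨O, hO, h1⟩ := hZ.smooth
  obtain ⟨U, hU, h2⟩ := exists_nhds_of_within hZ.left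
  have h3 := map_mem_ZT (R := RR Φ S) (R' := RR Φ S) (Θ := fun q => (q.1, Z q))
    (inter_mem hO hU) (contDiffOn_fst.prodMk (h1.mono inter_subset_left))
    (fun q hq hqU => h2 q hq hqU.2) hC
  have h4 : HasFDerivAt (fun q : (E × E) × (E × E) => (q.1, Z q))
      ((ContinuousLinearMap.fst ℝ (E × E) (E × E)).prod (fderiv ℝ Z (w, Φ L w))) (w, Φ L w) :=
    hasFDerivAt_fst.prodMk hZ.diff.hasFDerivAt
  rw [h4.fderiv, hZ.self] at h3
  exact h3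

theorem ZMap.right_ZT (hZ : ZMap Φ S ζ w L s Z) {C : (E × E) × (E × E)}
    (hC : C ∈ ZT (RR Φ S) (w, Φ L w)) :
    (fderiv ℝ Z (w, Φ L w) C, C.2) ∈ ZT (RR Φ S) (Φ s w, Φ L w) := by
  obtain ⟨O, hO, h1⟩ := hZ.smooth
  obtain ⟨U, hU, h2⟩ := exists_nhds_of_within hZ.right
  have h3 := map_mem_ZT (R := RR Φ S) (R' := RR Φ S) (Θ := fun q => (Z q, q.2))
    (inter_mem hO hU) ((h1.mono inter_subset_left).prodMk contDiffOn_snd)
    (fun q hq hqU => h2 q hq hqU.2) hC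
  have h4 : HasFDerivAt (fun q : (E × E) × (E × E) => (Z q, q.2))
      ((fderiv ℝ Z (w, Φ L w)).prod (ContinuousLinearMap.snd ℝ (E × E) (E × E))) (w, Φ L w) :=
    hZ.diff.hasFDerivAt.prodMk hasFDerivAt_snd
  rw [h4.fderiv, hZ.self] at h3
  exact h3

/-- `D_x ζ` maps `T(w)` into `T(z)`. -/
theorem ZMap.map_left (h : GFlow F S A K K₂ Φ)
    (hdim : Module.finrank ℝ E = Module.finrank ℝ F + n) (hc : C1At Φ S ζ ν (w, Φ L w))
    (hZ : ZMap Φ S ζ w L s Z) {a : E} (ha : a ∈ TT Φ S w) :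
    fderiv ℝ ζ (w.1, (Φ L w).1) (a, 0) ∈ TT Φ S (Φ s w) := by
  obtain ⟨k, hk, rfl⟩ := ha
  have hR := retRel h hdim
  have hw : w ∈ UT S := hc.mem.1
  have h1 : ((k, (0 : E × E)) : (E × E) × (E × E)) ∈ ZT (RR Φ S) (w, Φ L w) := by
    have h2 := (hR.mem_graph hw L (a := k) (b := 0)).2
      ⟨hR.Y_le hw hk, by rw [sub_zero]; exact hk⟩
    rwa [map_zero] at h2
  have h2 := hZ.right_ZT h1
  have hz : Φ s w ∈ UT S := hR.flow_mem hw s
  have h3 : Φ L w = Φ (L - s) (Φ s w) := by rw [← hR.add, sub_add_cancel]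
  have h5 : ((fderiv ℝ Z (w, Φ L w) (k, 0), fderiv ℝ (Φ (L - s)) (Φ s w) 0) :
      (E × E) × (E × E)) ∈ ZT (RR Φ S) (Φ s w, Φ (L - s) (Φ s w)) := by
    rw [map_zero, ← h3]
    exact h2
  have h4 := ((hR.mem_graph hz (L - s)).1 h5).2
  rw [sub_zero] at h4
  exact ⟨_, h4, hZ.fderiv_fst hc (k, 0)⟩

/-- `D_y ζ` maps `T(v)` into `T(z)`. -/
theorem ZMap.map_right (h : GFlow F S A K K₂ Φ)
    (hdim : Module.finrank ℝ E = Module.finrank ℝ F + n) (hc : C1At Φ S ζ ν (w, Φ L w))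
    (hZ : ZMap Φ S ζ w L s Z) {b : E} (hb : b ∈ TT Φ S (Φ L w)) :
    fderiv ℝ ζ (w.1, (Φ L w).1) (0, b) ∈ TT Φ S (Φ s w) := by
  obtain ⟨k, hk, rfl⟩ := hb
  have hR := retRel h hdim
  have hw : w ∈ UT S := hc.mem.1
  have hcomp : ∀ t : ℝ, ∀ m : E × E,
      ((0 : E × E), m) ∈ ZT (RR Φ S) (w, Φ t w) ↔ m ∈ YY Φ S (Φ t w) := by
    intro t m
    set b := fderiv ℝ (Φ (-t)) (Φ t w) m with hb
    have hbm : fderiv ℝ (Φ t) w b = m := hR.fderiv_inv' t w m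
    have h1 := hR.mem_graph hw t (a := 0) (b := b)
    rw [hbm, zero_sub] at h1
    have h2 := hR.flow_Y hw t (a := b)
    rw [hbm] at h2
    rw [h1]
    refine ⟨fun h3 => h2.2 ?_, fun h3 => ⟨Submodule.zero_mem _, Submodule.neg_mem _ (h2.1 h3)⟩⟩
    have := Submodule.neg_mem _ h3.2
    rwa [neg_neg] at this
  have h2 := hZ.left_ZT ((hcomp L k).2 hk)
  exact ⟨_, (hcomp s _).1 h2, hZ.fderiv_fst hc (0, k)⟩

theorem finrank_map_on {V W : Type*} [AddCommGroup V] [Module ℝ V] [AddCommGroup W] [Module ℝ W]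
    {T : Submodule ℝ V} {f : V →ₗ[ℝ] W} (hf : ∀ a ∈ T, f a = 0 → a = 0) :
    Module.finrank ℝ (T.map f) = Module.finrank ℝ T := by
  have h1 : Function.Injective (f.domRestrict T) := by
    rw [injective_iff_map_eq_zero]
    intro a ha
    exact Subtype.ext (hf a.1 a.2 ha)
  have h2 := LinearMap.finrank_range_of_inj h1
  rwa [LinearMap.range_domRestrict] at h2

theorem finrank_TT {u : E × E} (hu : Tr Φ S u) :
    Module.finrank ℝ (TT Φ S u) = Module.finrank ℝ (YY Φ S u) :=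
  finrank_map_on fun a ha h0 => hu a ha h0

/-- Both partial derivatives map onto `T(z)`. -/
theorem ZMap.map_eq (h : GFlow F S A K K₂ Φ)
    (hdim : Module.finrank ℝ E = Module.finrank ℝ F + n) (hc : C1At Φ S ζ ν (w, Φ L w))
    (hZ : ZMap Φ S ζ w L s Z) :
    (∀ c ∈ TT Φ S (Φ s w), ∃ a ∈ TT Φ S w, fderiv ℝ ζ (w.1, (Φ L w).1) (a, 0) = c) ∧
      ∀ c ∈ TT Φ S (Φ s w), ∃ b ∈ TT Φ S (Φ L w), fderiv ℝ ζ (w.1, (Φ L w).1) (0, b) = c := by
  have hR := retRel h hdim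
  have hw : w ∈ UT S := hc.mem.1
  have hv : Φ L w ∈ UT S := hc.mem.2.1
  set D := (fderiv ℝ ζ (w.1, (Φ L w).1) : E × E →ₗ[ℝ] E) with hD
  set L₁ : E →ₗ[ℝ] E := D.comp (LinearMap.inl ℝ E E) with hL₁
  set L₂ : E →ₗ[ℝ] E := D.comp (LinearMap.inr ℝ E E) with hL₂
  have hT1 : ∀ a ∈ TT Φ S w, a ∈ ZT S w.1 := by
    rintro _ ⟨k, hk, rfl⟩
    exact fst_mem_TS hw (hR.Y_le hw hk)
  have hT2 : ∀ a ∈ TT Φ S (Φ L w), a ∈ ZT S (Φ L w).1 := by
    rintro _ ⟨k, hk, rfl⟩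
    exact fst_mem_TS hv (hR.Y_le hv hk)
  have hle : Module.finrank ℝ (TT Φ S (Φ s w)) ≤ Module.finrank ℝ (YY Φ S w) := by
    have h1 : Module.finrank ℝ (YY Φ S (Φ s w)) = Module.finrank ℝ (YY Φ S w) :=
      hR.finrank_flow_Y hw s
    rw [← h1]
    exact Submodule.finrank_map_le _ _
  have e1 : (TT Φ S w).map L₁ = TT Φ S (Φ s w) := by
    apply Submodule.eq_of_le_of_finrank_le
    · rintro _ ⟨a, ha, rfl⟩
      exact hZ.map_left h hdim hc ha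
    · rw [finrank_map_on (f := L₁) (fun a ha h0 => hc.inj.1 a (hT1 a ha) h0),
        finrank_TT (hc.tr h hdim)]
      exact hle
  have e2 : (TT Φ S (Φ L w)).map L₂ = TT Φ S (Φ s w) := by
    apply Submodule.eq_of_le_of_finrank_le
    · rintro _ ⟨a, ha, rfl⟩
      exact hZ.map_right h hdim hc ha
    · rw [finrank_map_on (f := L₂) (fun a ha h0 => hc.inj.2 a (hT2 a ha) h0),
        finrank_TT (hc.tr' h hdim)]
      have h1 : Module.finrank ℝ (YY Φ S (Φ L w)) = Module.finrank ℝ (YY Φ S w) :=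
        hR.finrank_flow_Y hw L
      rw [h1]
      exact hle
  constructor
  · intro c hc'
    rw [← e1] at hc'
    exact hc'
  · intro c hc'
    rw [← e2] at hc'
    exact hc'

/-- The two relations of `ZMap` from the density of exact class returns. -/
theorem rel_of_dense (h : GFlow F S A K K₂ Φ)
    (hdim : Module.finrank ℝ E = Module.finrank ℝ F + n) {O 𝒞 : Set ((E × E) × (E × E))}
    (hO : IsOpen O) (hZ : ContinuousOn Z O) (hd : ∀ q ∈ O, q ∈ RR Φ S → q ∈ closure 𝒞)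
    (hC : ∀ q ∈ 𝒞, q ∈ O → q.1 ∈ UT S ∧ ∃ L s : ℝ, q.2 = Φ L q.1 ∧ Z q = Φ s q.1)
    {q : (E × E) × (E × E)} (hq : q ∈ O) (hqR : q ∈ RR Φ S) :
    (q.1, Z q) ∈ RR Φ S ∧ (Z q, q.2) ∈ RR Φ S := by
  have hR := retRel h hdim
  have hcl : q ∈ closure (𝒞 ∩ O) := by
    rw [mem_closure_iff]
    intro V hV hqV
    obtain ⟨r, hr, hrC⟩ := mem_closure_iff.1 (hd q hq hqR) (V ∩ O) (hV.inter hO) ⟨hqV, hq⟩
    exact ⟨r, hr.1, hrC, hr.2⟩
  have hZq : ContinuousAt Z q := hZ.continuousAt (hO.mem_nhds hq)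
  have key : ∀ r ∈ 𝒞 ∩ O, (r.1, Z r) ∈ RR Φ S ∧ (Z r, r.2) ∈ RR Φ S := by
    rintro r ⟨hrC, hrO⟩
    obtain ⟨hr1, L, s, hL, hs⟩ := hC r hrC hrO
    rw [hL, hs]
    refine ⟨hR.mem_flow hr1 s, ?_⟩
    have h1 := hR.mem_flow (hR.flow_mem hr1 s) (L - s)
    rwa [← hR.add, sub_add_cancel] at h1
  constructor
  · have h1 : ContinuousWithinAt (fun r : (E × E) × (E × E) => (r.1, Z r)) (𝒞 ∩ O) q :=
      (continuousAt_fst.prodMk hZq).continuousWithinAt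
    have h2 := h1.mem_closure_image hcl
    refine closure_minimal ?_ hR.closed h2
    rintro _ ⟨r, hr, rfl⟩
    exact (key r hr).1
  · have h1 : ContinuousWithinAt (fun r : (E × E) × (E × E) => (Z r, r.2)) (𝒞 ∩ O) q :=
      (hZq.prodMk continuousAt_snd).continuousWithinAt
    have h2 := h1.mem_closure_image hcl
    refine closure_minimal ?_ hR.closed h2
    rintro _ ⟨r, hr, rfl⟩
    exact (key r hr).2

/-- **(C2)**. -/
theorem ZMap.c2 (h : GFlow F S A K K₂ Φ)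
    (hdim : Module.finrank ℝ E = Module.finrank ℝ F + n) (hc : C1At Φ S ζ ν (w, Φ L w))
    (hZ : ZMap Φ S ζ w L s Z) :
    ∀ a ∈ TT Φ S w, ∃ b ∈ TT Φ S (Φ L w), fderiv ℝ ζ (w.1, (Φ L w).1) (a, b) = 0 := by
  intro a ha
  obtain ⟨b, hb, h1⟩ := (hZ.map_eq h hdim hc).2 _ (Submodule.neg_mem _ (hZ.map_left h hdim hc ha))
  refine ⟨b, hb, ?_⟩
  have h2 : ((a, b) : E × E) = (a, 0) + (0, b) := by simp
  rw [h2, map_add, h1, add_neg_cancel]

/-- **(C2')**. -/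
theorem ZMap.c2' (h : GFlow F S A K K₂ Φ)
    (hdim : Module.finrank ℝ E = Module.finrank ℝ F + n) (hc : C1At Φ S ζ ν (w, Φ L w))
    (hZ : ZMap Φ S ζ w L s Z) :
    ∀ b ∈ TT Φ S (Φ L w), ∃ a ∈ TT Φ S w, fderiv ℝ ζ (w.1, (Φ L w).1) (a, b) = 0 := by
  intro b hb
  obtain ⟨a, ha, h1⟩ := (hZ.map_eq h hdim hc).1 _ (Submodule.neg_mem _ (hZ.map_right h hdim hc hb))
  refine ⟨a, ha, ?_⟩
  have h2 : ((a, b) : E × E) = (a, 0) + (0, b) := by simp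
  rw [h2, map_add, h1, neg_add_cancel]

end Pool.Agent.H52.S2
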